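import Pool.Agent.H73.TS.TargetsC

/-!
Board `ts_modules`, letter CUC: counting in cubes.
-/

open MeasureTheory Set Metric

namespace Pool.Agent.H62.TS

open Pool.Agent.H73.TS

theorem box_compact {k : ℕ} (a b : Fin k → ℝ) : IsCompact {x : E k | ∀ r, x r ∈ Set.Icc (a r) (b r)} := by
  have h1 : IsCompact (Set.pi Set.univ fun r : Fin k => Set.Icc (a r) (b r)) :=
    isCompact_univ_pi fun r => isCompact_Icc
  have h2 := h1.image (PiLp.continuous_toLp 2 (fun _ : Fin k => ℝ))
  convert h2 using 1
  ext x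
  constructor
  · intro hx
    exact ⟨fun r => x r, fun r _ => hx r, rfl⟩
  · rintro ⟨y, hy, rfl⟩ r
    exact hy r (Set.mem_univ r)

theorem box_convex {k : ℕ} (a b : Fin k → ℝ) : Convex ℝ {x : E k | ∀ r, x r ∈ Set.Icc (a r) (b r)} := by
  intro x hx y hy s t hs ht hst r
  exact (convex_Icc (a r) (b r)) (hx r) (hy r) hs ht hst

theorem cuc (hISO : T_ISO) : T_CUC := by
  classical
  intro d k σ L T N z S hσ hN hW hST hz
  set φ : E d → Fin d → ℤ := fun u i => if i ∈ Set.range σ then 0 else ⌊(L u) i⌋ with hφ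
  set P : Finset (Fin d → ℤ) := Fintype.piFinset fun i =>
    if i ∈ Set.range σ then {0} else Finset.Ico (z i) (z i + N) with hP
  have hmaps : ∀ u ∈ S, φ u ∈ P := by
    intro u hu
    rw [hP, Fintype.mem_piFinset]
    intro i
    rw [hφ]
    by_cases hi : i ∈ Set.range σ
    · simp only [if_pos hi, Finset.mem_singleton]
    · simp only [if_neg hi, Finset.mem_Ico]
      obtain ⟨h1, h2⟩ := hz u hu i
      refine ⟨Int.le_floor.2 h1, Int.floor_lt.2 ?_⟩
      push_cast
      exact h2
  set v : E k := WithLp.toLp 2 (fun r => (z (σ r) : ℝ)) with hv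
  have hQ : {x : E k | ∀ r, x r ∈ Set.Icc (z (σ r) : ℝ) (z (σ r) + N)} =
      (fun x => v + x) '' {x : E k | ∀ r, x r ∈ Set.Icc (0 : ℝ) N} := by
    ext x
    constructor
    · intro hx
      refine ⟨x - v, fun r => ?_, by simp⟩
      have h1 := hx r
      rw [Set.mem_Icc] at h1 ⊢
      have h2 : (x - v) r = x r - z (σ r) := by simp [hv]
      rw [h2]
      constructor <;> linarith [h1.1, h1.2]
    · rintro ⟨y, hy, rfl⟩ r
      have h1 := hy r
      rw [Set.mem_Icc] at h1 ⊢
      have h2 : (v + y) r = z (σ r) + y r := by simp [hv]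
      show (z (σ r) : ℝ) ≤ (v + y) r ∧ (v + y) r ≤ z (σ r) + N
      rw [h2]
      constructor <;> linarith [h1.1, h1.2]
  have hfib : ∀ m ∈ P, ((S.filter fun u => φ u = m).card : ℝ) ≤
      W {x : E k | ∀ r, x r ∈ Set.Icc (0 : ℝ) N} := by
    intro m _
    rw [← (hISO k _).2 v, ← hQ]
    refine hW _ (S.filter fun u => φ u = m) m (box_compact _ _) (box_convex _ _) ?_ ?_ ?_ ?_
    · refine ⟨v, fun r => ?_⟩
      rw [Set.mem_Icc]
      have h2 : v r = z (σ r) := by simp [hv]
      rw [h2]
      have : (0 : ℝ) ≤ N := Nat.cast_nonneg N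
      constructor <;> linarith
    · intro u hu
      rw [Finset.mem_coe, Finset.mem_filter] at hu
      exact hST hu.1
    · intro u hu i hi
      rw [Finset.mem_filter] at hu
      have h1 : m i = ⌊(L u) i⌋ := by
        rw [← hu.2, hφ]
        simp only [if_neg hi]
      rw [h1]
      exact ⟨Int.floor_le _, Int.lt_floor_add_one _⟩
    · intro u hu r
      rw [Finset.mem_filter] at hu
      obtain ⟨h1, h2⟩ := hz u hu.1 (σ r)
      exact ⟨h1, h2.le⟩
  have hcard : P.card = N ^ (d - k) := by
    rw [hP, Fintype.card_piFinset]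
    have h1 : ∀ i : Fin d, (if i ∈ Set.range σ then ({0} : Finset ℤ)
        else Finset.Ico (z i) (z i + N)).card = if i ∈ Finset.univ.image σ then 1 else N := by
      intro i
      by_cases hi : i ∈ Set.range σ
      · have hi2 : i ∈ Finset.univ.image σ := by
          obtain ⟨r, hr⟩ := hi
          exact Finset.mem_image.2 ⟨r, Finset.mem_univ _, hr⟩
        rw [if_pos hi, if_pos hi2, Finset.card_singleton]
      · have hi2 : i ∉ Finset.univ.image σ := by
          intro h
          obtain ⟨r, -, hr⟩ := Finset.mem_image.1 h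
          exact hi ⟨r, hr⟩
        rw [if_neg hi, if_neg hi2, Int.card_Ico]
        simp
    rw [Finset.prod_congr rfl fun i _ => h1 i, Finset.prod_ite, Finset.prod_const_one, one_mul,
      Finset.prod_const]
    congr 1
    have h2 : (Finset.univ.filter fun i => i ∉ Finset.univ.image σ) = (Finset.univ.image σ)ᶜ := by
      ext i; simp
    rw [h2, Finset.card_compl, Finset.card_image_of_injective _ hσ, Finset.card_univ,
      Fintype.card_fin, Fintype.card_fin]
  rw [Finset.card_eq_sum_card_fiberwise hmaps]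
  push_cast
  calc ∑ m ∈ P, ((S.filter fun u => φ u = m).card : ℝ)
      ≤ ∑ m ∈ P, W {x : E k | ∀ r, x r ∈ Set.Icc (0 : ℝ) N} := Finset.sum_le_sum hfib
    _ = (N : ℝ) ^ (d - k) * W {x : E k | ∀ r, x r ∈ Set.Icc (0 : ℝ) N} := by
        rw [Finset.sum_const, hcard, nsmul_eq_mul]
        push_cast
        ring

end Pool.Agent.H62.TS
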