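import Pool.Agent.H73.TS.TargetsC
import Pool.Agent.H83.TS.SEP

/-!
Board `ts_modules`, letter WIN: finite counting inside a unit window.
-/

open MeasureTheory Set Metric

namespace Pool.Agent.H62.TS

open Pool.Agent.H73.TS

theorem sum_split {d k : ℕ} {σ : Fin k → Fin d} (hσ : Function.Injective σ) (h : Fin d → ℝ) :
    ∑ i, h i = ∑ r, h (σ r) + ∑ i ∈ (Finset.univ.image σ)ᶜ, h i := by
  rw [← Finset.sum_add_sum_compl (Finset.univ.image σ) h,
    Finset.sum_image fun x _ y _ hxy => hσ hxy]

theorem inner_prj {d k : ℕ} (σ : Fin k → Fin d) (a b : E d) :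
    inner ℝ (prj σ a) (prj σ b) = ∑ r, a (σ r) * b (σ r) := by
  rw [EuclideanSpace.inner_eq_star_dotProduct]
  simp [prj, dotProduct, mul_comm]

theorem norm_prj {d k : ℕ} (σ : Fin k → Fin d) (a : E d) :
    ‖prj σ a‖ = Real.sqrt (∑ r, a (σ r) ^ 2) := by
  rw [EuclideanSpace.norm_eq]
  simp [prj]

theorem inner_all {d : ℕ} (a b : E d) : inner ℝ a b = ∑ i, a i * b i := by
  rw [EuclideanSpace.inner_eq_star_dotProduct]
  simp [dotProduct, mul_comm]

theorem inner_split {d k : ℕ} {σ : Fin k → Fin d} (hσ : Function.Injective σ) (a b : E d) :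
    inner ℝ a b = inner ℝ (prj σ a) (prj σ b) + ∑ i ∈ (Finset.univ.image σ)ᶜ, a i * b i := by
  rw [inner_all, inner_prj, sum_split hσ]

theorem win : T_WIN := by
  intro d k σ L K T hC hσ hKc hK hne hw hTS Q S m hQ hQc hQn hST hm hSQ
  have hKne : K.Nonempty := hne.mono interior_subset
  set J : Finset (Fin d) := (Finset.univ.image σ)ᶜ with hJ
  have hmJ : ∀ u ∈ S, ∀ i ∈ J, (m i : ℝ) ≤ (L u) i ∧ (L u) i < m i + 1 := by
    intro u hu i hi
    refine hm u hu i fun ⟨r, hr⟩ => ?_
    rw [hJ, Finset.mem_compl] at hi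
    exact hi (Finset.mem_image.2 ⟨r, Finset.mem_univ _, hr⟩)
  have main : ∀ t ∈ S, ∀ s ∈ S, t ≠ s → ∃ (e : E k) (c' : ℝ), ‖e‖ = 1 ∧
      inner ℝ e (prj σ (L t)) ≤ c' - 1 / 2 ∧ c' + 1 / 2 ≤ inner ℝ e (prj σ (L s)) ∧
      ∀ u ∈ S, inner ℝ e (prj σ (L u)) ≤ c' - 1 / 2 ∨ c' + 1 / 2 ≤ inner ℝ e (prj σ (L u)) := by
    intro t ht s hs hts
    obtain ⟨f, c, hf, hft, hfs, hint⟩ := hTS t (hST ht) s (hST hs) hts
    set F : E d →L[ℝ] ℝ := f.comp (L.symm : E d →L[ℝ] E d) with hF
    set a : E d := (InnerProductSpace.toDual ℝ (E d)).symm F with ha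
    have hin : ∀ u : E d, inner ℝ a (L u) = f u := by
      intro u
      rw [ha, InnerProductSpace.toDual_symm_apply, hF]
      simp
    have hane : a ≠ 0 := by
      intro h0
      apply hf
      ext x
      have := hin x
      rw [h0, inner_zero_left] at this
      simpa using this.symm
    obtain ⟨xM, hxM, hM⟩ := hKc.exists_isMaxOn hKne f.continuous.continuousOn
    obtain ⟨xm, hxm, hmn⟩ := hKc.exists_isMinOn hKne f.continuous.continuousOn
    set A : ℝ := Real.sqrt (∑ r, a (σ r) ^ 2) with hA
    set B : ℝ := ∑ i ∈ J, |a i| with hB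
    have hB2 : (∑ i, |a i|) - ∑ r, |a (σ r)| = B := by
      rw [sum_split hσ (fun i => |a i|), add_sub_cancel_left]
    have hAB : A + B ≤ f xM - f xm := by
      obtain ⟨x, hx, y, hy, h⟩ := hw a
      rw [hB2, hin, hin] at h
      have h1 : f x ≤ f xM := hM hx
      have h2 : f xm ≤ f y := hmn hy
      linarith
    have hA0 : 0 ≤ A := Real.sqrt_nonneg _
    -- the two kinds
    have kind : ∀ u ∈ S, f u + f xM ≤ c ∨ c ≤ f u + f xm := by
      intro u hu
      rcases Pool.Agent.H83.TS.side K hKc.isClosed hK hne f c u (hint u (hST hu)) with h | h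
      · left
        have h1 := h xM hxM
        rwa [map_add] at h1
      · right
        have h1 := h xm hxm
        rwa [map_add] at h1
    have kt : f t + f xM ≤ c := by
      have h1 := hft xM hxM
      rwa [map_add] at h1
    have ks : c ≤ f s + f xm := by
      have h1 := hfs xm hxm
      rwa [map_add] at h1
    -- the part outside
    have hsplit : ∀ u : E d, f u = inner ℝ (prj σ a) (prj σ (L u)) + ∑ i ∈ J, a i * (L u) i := by
      intro u
      rw [← hin u, inner_split hσ]
    set g0 : ℝ := ∑ i ∈ J, min (a i * m i) (a i * (m i + 1)) with hg0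
    have hg : ∀ u ∈ S, g0 ≤ ∑ i ∈ J, a i * (L u) i ∧ ∑ i ∈ J, a i * (L u) i ≤ g0 + B := by
      intro u hu
      constructor
      · refine Finset.sum_le_sum fun i hi => ?_
        obtain ⟨h1, h2⟩ := hmJ u hu i hi
        rcases le_total 0 (a i) with h | h
        · exact (min_le_left _ _).trans (mul_le_mul_of_nonneg_left h1 h)
        · exact (min_le_right _ _).trans (mul_le_mul_of_nonpos_left h2.le h)
      · rw [hg0, hB, ← Finset.sum_add_distrib]
        refine Finset.sum_le_sum fun i hi => ?_
        obtain ⟨h1, h2⟩ := hmJ u hu i hi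
        rcases le_total 0 (a i) with h | h
        · rw [abs_of_nonneg h, min_eq_left (by nlinarith)]
          nlinarith
        · rw [abs_of_nonpos h, min_eq_right (by nlinarith)]
          nlinarith
    have hApos : 0 < A := by
      rcases hA0.lt_or_eq with h | h
      · exact h
      exfalso
      have hp0 : prj σ a = 0 := by
        rw [← norm_eq_zero, norm_prj, ← hA, ← h]
      have e1 := hsplit t
      have e2 := hsplit s
      rw [hp0, inner_zero_left, zero_add] at e1 e2
      have h3 : B ≤ ∑ i ∈ J, a i * (L s) i - ∑ i ∈ J, a i * (L t) i := by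
        rw [← e1, ← e2]
        linarith
      -- some coordinate in `J` is nonzero
      have h4 : ∃ i ∈ J, a i ≠ 0 := by
        by_contra hcon
        push Not at hcon
        apply hane
        ext i
        by_cases hi : i ∈ J
        · exact hcon i hi
        · rw [hJ, Finset.mem_compl, not_not, Finset.mem_image] at hi
          obtain ⟨r, -, rfl⟩ := hi
          have h5 := congrArg (fun v : E k => v r) hp0
          simpa [prj] using h5
      obtain ⟨i0, hi0, hai⟩ := h4
      have h5 : ∑ i ∈ J, (a i * (L s) i - a i * (L t) i) < ∑ i ∈ J, |a i| := by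
        refine Finset.sum_lt_sum (fun i hi => ?_) ⟨i0, hi0, ?_⟩
        · obtain ⟨h1, h2⟩ := hmJ t ht i hi
          obtain ⟨h3, h4⟩ := hmJ s hs i hi
          rw [← mul_sub]
          refine (le_abs_self _).trans ?_
          rw [abs_mul]
          refine mul_le_of_le_one_right (abs_nonneg _) (abs_le.2 ⟨?_, ?_⟩) <;> linarith
        · obtain ⟨h1, h2⟩ := hmJ t ht i0 hi0
          obtain ⟨h3, h4⟩ := hmJ s hs i0 hi0
          rw [← mul_sub]
          refine (le_abs_self _).trans_lt ?_
          rw [abs_mul]
          refine mul_lt_of_lt_one_right (abs_pos.2 hai) (abs_lt.2 ⟨?_, ?_⟩) <;> linarith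
      rw [Finset.sum_sub_distrib] at h5
      linarith
    refine ⟨(1 / A) • prj σ a, (c - f xM - g0) / A + 1 / 2, ?_, ?_, ?_, ?_⟩
    · rw [norm_smul, norm_prj, ← hA, Real.norm_eq_abs, abs_of_pos (by positivity)]
      field_simp
    · have h1 := hsplit t
      have h2 := (hg t ht).1
      rw [real_inner_smul_left, add_sub_cancel_right, one_div, inv_mul_eq_div]
      exact div_le_div_of_nonneg_right (by linarith) hA0
    · have h1 := hsplit s
      have h2 := (hg s hs).2
      rw [real_inner_smul_left, add_assoc, add_halves, div_add_one hApos.ne', one_div,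
        inv_mul_eq_div]
      exact div_le_div_of_nonneg_right (by linarith) hA0
    · intro u hu
      have h1 := hsplit u
      rcases kind u hu with h | h
      · left
        have h2 := (hg u hu).1
        rw [real_inner_smul_left, add_sub_cancel_right, one_div, inv_mul_eq_div]
        exact div_le_div_of_nonneg_right (by linarith) hA0
      · right
        have h2 := (hg u hu).2
        rw [real_inner_smul_left, add_assoc, add_halves, div_add_one hApos.ne', one_div,
          inv_mul_eq_div]
        exact div_le_div_of_nonneg_right (by linarith) hA0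
  have hinj : Set.InjOn (fun u => prj σ (L u)) (S : Set (E d)) := by
    intro t ht s hs hts
    by_contra hne2
    obtain ⟨e, c', -, h1, h2, -⟩ := main t ht s hs hne2
    simp only at hts
    rw [hts] at h1
    linarith
  classical
  have hcard : (S.image (fun u => prj σ (L u))).card = S.card := Finset.card_image_of_injOn hinj
  rw [← hcard]
  refine hC (S.image (fun u => prj σ (L u))) Q hQ hQc ?_ hQn ?_
  · intro z hz
    rw [Finset.mem_coe, Finset.mem_image] at hz
    obtain ⟨u, hu, rfl⟩ := hz
    exact hSQ u hu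
  · intro x hx y hy hxy
    rw [Finset.mem_image] at hx hy
    obtain ⟨t, ht, rfl⟩ := hx
    obtain ⟨s, hs, rfl⟩ := hy
    have hts : t ≠ s := fun h => hxy (by rw [h])
    obtain ⟨e, c', he, h1, h2, h3⟩ := main t ht s hs hts
    refine ⟨e, c', he, Or.inl ⟨h1, h2⟩, fun z hz => ?_⟩
    rw [Finset.mem_image] at hz
    obtain ⟨u, hu, rfl⟩ := hz
    exact h3 u hu

end Pool.Agent.H62.TS
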